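import Pool.Agent.Helper70.KN.Goals

/-!
# Project KN (MP_20ee5e_ag), packet AV: averaging
-/

set_option autoImplicit false

open MeasureTheory Set

namespace Pool.Agent.Helper75.KN.AV

open Pool.Agent.Helper70.KN

/-- the integrated form of the pointwise inequality -/
theorem key (hPW : S_PW) (N : ℕ) (hN : 3 ≤ N) (h : ℝ) (μ : Measure (Fin N → ℝ)) [IsFiniteMeasure μ] :
    ∑ i : Fin N, μ.real {x : Fin N → ℝ | ∀ j, j ≠ i → ¬ x j < h} ≤
      (N : ℝ) * μ.real univ - ((N : ℝ) - 1) * ∑ i : Fin N, μ.real {x : Fin N → ℝ | ∀ j ∈ ({i} : Finset (Fin N)), x j < h} +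
        ((N : ℝ) - 2) * ∑ J ∈ (Finset.univ : Finset (Fin N)).powersetCard 2,
          μ.real {x : Fin N → ℝ | ∀ j ∈ J, x j < h} := by
  classical
  have hlt : ∀ j : Fin N, MeasurableSet {x : Fin N → ℝ | x j < h} := fun j =>
    measurableSet_lt (measurable_pi_apply j) measurable_const
  have hD : ∀ J : Finset (Fin N), MeasurableSet {x : Fin N → ℝ | ∀ j ∈ J, x j < h} := by
    intro J
    have : {x : Fin N → ℝ | ∀ j ∈ J, x j < h} = ⋂ j ∈ J, {x : Fin N → ℝ | x j < h} := by
      ext x; simp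
    rw [this]
    exact Finset.measurableSet_biInter J fun j _ => hlt j
  have hB : ∀ i : Fin N, MeasurableSet {x : Fin N → ℝ | ∀ j, j ≠ i → ¬ x j < h} := by
    intro i
    have : {x : Fin N → ℝ | ∀ j, j ≠ i → ¬ x j < h} =
        ⋂ j ∈ (Finset.univ.erase i : Finset (Fin N)), {x : Fin N → ℝ | x j < h}ᶜ := by
      ext x; simp
    rw [this]
    exact Finset.measurableSet_biInter _ fun j _ => (hlt j).compl
  have hint : ∀ S : Set (Fin N → ℝ), MeasurableSet S →
      Integrable (S.indicator (fun _ => (1 : ℝ))) μ := fun S hS => (integrable_const 1).indicator hS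
  have hval : ∀ S : Set (Fin N → ℝ), MeasurableSet S →
      ∫ x, S.indicator (fun _ => (1 : ℝ)) x ∂μ = μ.real S := by
    intro S hS
    rw [integral_indicator_const (1 : ℝ) hS]
    simp
  have h1 : ∑ i : Fin N, μ.real {x : Fin N → ℝ | ∀ j, j ≠ i → ¬ x j < h} =
      ∫ x, ∑ i : Fin N, ({x : Fin N → ℝ | ∀ j, j ≠ i → ¬ x j < h}).indicator (fun _ => (1 : ℝ)) x ∂μ := by
    rw [integral_finsetSum _ (fun i _ => hint _ (hB i))]
    exact Finset.sum_congr rfl fun i _ => (hval _ (hB i)).symm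
  have h2 : ∑ i : Fin N, μ.real {x : Fin N → ℝ | ∀ j ∈ ({i} : Finset (Fin N)), x j < h} =
      ∫ x, ∑ i : Fin N, ({x : Fin N → ℝ | ∀ j ∈ ({i} : Finset (Fin N)), x j < h}).indicator
        (fun _ => (1 : ℝ)) x ∂μ := by
    rw [integral_finsetSum _ (fun i _ => hint _ (hD {i}))]
    exact Finset.sum_congr rfl fun i _ => (hval _ (hD {i})).symm
  have h3 : ∑ J ∈ (Finset.univ : Finset (Fin N)).powersetCard 2,
        μ.real {x : Fin N → ℝ | ∀ j ∈ J, x j < h} =
      ∫ x, ∑ J ∈ (Finset.univ : Finset (Fin N)).powersetCard 2,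
        ({x : Fin N → ℝ | ∀ j ∈ J, x j < h}).indicator (fun _ => (1 : ℝ)) x ∂μ := by
    rw [integral_finsetSum _ (fun J _ => hint _ (hD J))]
    exact Finset.sum_congr rfl fun J _ => (hval _ (hD J)).symm
  have i1 : Integrable (fun x => ∑ i : Fin N,
      ({x : Fin N → ℝ | ∀ j, j ≠ i → ¬ x j < h}).indicator (fun _ => (1 : ℝ)) x) μ :=
    integrable_finsetSum _ fun i _ => hint _ (hB i)
  have i2 : Integrable (fun x => ∑ i : Fin N,
      ({x : Fin N → ℝ | ∀ j ∈ ({i} : Finset (Fin N)), x j < h}).indicator (fun _ => (1 : ℝ)) x) μ :=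
    integrable_finsetSum _ fun i _ => hint _ (hD {i})
  have i3 : Integrable (fun x => ∑ J ∈ (Finset.univ : Finset (Fin N)).powersetCard 2,
      ({x : Fin N → ℝ | ∀ j ∈ J, x j < h}).indicator (fun _ => (1 : ℝ)) x) μ :=
    integrable_finsetSum _ fun J _ => hint _ (hD J)
  rw [h1, h2, h3]
  have h4 : (N : ℝ) * μ.real univ = ∫ _x, (N : ℝ) ∂μ := by
    rw [integral_const, smul_eq_mul, mul_comm]
  have h6 : ∀ F2 F3 : (Fin N → ℝ) → ℝ, Integrable F2 μ → Integrable F3 μ →
      ∫ _x, (N : ℝ) ∂μ - ((N : ℝ) - 1) * ∫ x, F2 x ∂μ + ((N : ℝ) - 2) * ∫ x, F3 x ∂μ =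
        ∫ x, ((N : ℝ) - ((N : ℝ) - 1) * F2 x + ((N : ℝ) - 2) * F3 x) ∂μ := by
    intro F2 F3 j2 j3
    have e1 : Integrable (fun x => (N : ℝ) - ((N : ℝ) - 1) * F2 x) μ :=
      (integrable_const _).sub (j2.const_mul _)
    rw [integral_add e1 (j3.const_mul _), integral_sub (integrable_const _) (j2.const_mul _),
      integral_const_mul, integral_const_mul]
  rw [h4, h6 _ _ i2 i3]
  refine integral_mono i1 ?_ ?_
  · exact ((integrable_const _).sub (i2.const_mul _)).add (i3.const_mul _)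
  · intro x
    have h5 := hPW N hN (fun j => x j < h)
    simpa [Set.indicator_apply] using h5

/-- **AV.** -/
theorem t (hMF : S_MF) (hJE : S_JE) (hPW : S_PW) : S_AV := by
  classical
  intro N hN V hV h h0 hh
  have hcyl : cyl V ∅ = {x : Fin N → ℝ | 0 ≤ x ∧ x ∉ newton V} := by
    ext x
    have hz : zr (∅ : Finset (Fin N)) x = x := by
      funext i; simp [zr]
    simp [cyl, hz]
  obtain ⟨hm, hf, -⟩ := hMF N V hV ∅
  have hW : W V ∅ = (volume {x : Fin N → ℝ | 0 ≤ x ∧ x ∉ newton V}).toReal := by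
    unfold W; rw [hcyl]
  rw [hcyl] at hm hf
  set U : Set (Fin N → ℝ) := {x : Fin N → ℝ | 0 ≤ x ∧ x ∉ newton V} with hU
  have : IsFiniteMeasure (volume.restrict U) :=
    ⟨by rw [Measure.restrict_apply_univ]; exact lt_top_iff_ne_top.2 hf⟩
  have hk := key hPW N hN h (volume.restrict U)
  have hr : ∀ S : Set (Fin N → ℝ), (volume.restrict U).real S = (volume (S ∩ U)).toReal := by
    intro S
    rw [Measure.real, Measure.restrict_apply' hm]
  have hY : ∀ J : Finset (Fin N), Y V h J =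
      (volume.restrict U).real {x : Fin N → ℝ | ∀ j ∈ J, x j < h} := by
    intro J
    rw [hr]
    unfold Y
    congr 2
    ext x
    simp only [part, hU, mem_ofPred_eq, mem_inter_iff]
    tauto
  have hG : ∀ i : Fin N, (genus V : ℝ) ≤
      (volume.restrict U).real {x : Fin N → ℝ | ∀ j, j ≠ i → ¬ x j < h} := by
    intro i
    rw [hr]
    refine (hJE N V hV i).trans (ENNReal.toReal_mono ?_ (measure_mono ?_))
    · exact ((measure_mono inter_subset_right).trans_lt (lt_top_iff_ne_top.2 hf)).ne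
    · rintro x ⟨hx1, hx2, hx3⟩
      exact ⟨fun j hj => not_lt.2 (hh.trans (hx3 j hj)), hx1, hx2⟩
  have hW' : W V ∅ = (volume.restrict U).real univ := by
    rw [hr, univ_inter, hW]
  have hs : (N : ℝ) * genus V ≤
      ∑ i : Fin N, (volume.restrict U).real {x : Fin N → ℝ | ∀ j, j ≠ i → ¬ x j < h} := by
    calc (N : ℝ) * genus V = ∑ _i : Fin N, (genus V : ℝ) := by simp
      _ ≤ _ := Finset.sum_le_sum fun i _ => hG i
  simp only [hY, hW']
  exact hs.trans hk

end Pool.Agent.Helper75.KN.AV
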