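import Pool.Agent.Helper70.KN.Goals2

/-! Packet SH of project KN part 2 (captain helper70): shears preserve the volume. -/

namespace Pool.Agent.Helper75.KN.SH

open MeasureTheory Pool.Agent.Helper70.KN

theorem t : S_SH := by
  intro N S J j _
  classical
  set v : Fin N → ℝ := fun k => if k ∈ J ∨ k = j then 0 else 1 with hv
  set M : Matrix (Fin N) (Fin N) ℝ := 1 + Matrix.vecMulVec v (Pi.single j 1) with hM
  have hdet : M.det = 1 := by
    rw [hM, Matrix.vecMulVec_eq Unit, Matrix.det_one_add_replicateCol_mul_replicateRow]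
    simp [hv]
  have hmv : ∀ (x : Fin N → ℝ) (k : Fin N),
      (Matrix.vecMulVec v (Pi.single j 1)).mulVec x k = v k * x j := by
    intro x k
    simp [Matrix.mulVec, dotProduct, Matrix.vecMulVec_apply, Pi.single_apply]
  have hL : ∀ x : Fin N → ℝ, Matrix.toLin' M x =
      fun k => if k ∈ J ∨ k = j then x k else x k + x j := by
    intro x
    funext k
    rw [Matrix.toLin'_apply, hM, Matrix.add_mulVec, Matrix.one_mulVec, Pi.add_apply, hmv]
    by_cases h : k ∈ J ∨ k = j
    · simp [hv, h]
    · simp [hv, h]
  have hdL : LinearMap.det (Matrix.toLin' M) = 1 := by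
    rw [LinearMap.det_toLin', hdet]
  have key := Measure.addHaar_preimage_linearMap (volume : Measure (Fin N → ℝ))
    (f := Matrix.toLin' M) (by rw [hdL]; exact one_ne_zero) S
  rw [hdL] at key
  simp only [inv_one, abs_one, ENNReal.ofReal_one, one_mul] at key
  rw [← key]
  congr 1
  ext x
  simp only [Set.mem_setOf_eq, Set.mem_preimage, hL]

end Pool.Agent.Helper75.KN.SH
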