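import Pool.Agent.Helper26.KN.Goals

namespace KN.PkPI

theorem pii (hPH : G_PH) (hPT : G_PT) : G_PI := by
  intro L l K eta x1 x2 x3 hL hl hlL heta hK1 hK2 hx1 hx2 hx3 hprod
  obtain ⟨h1, h2, h3⟩ := hPT x1 x2 x3 l hx1 hx2 hx3 hprod
  have h3L : 0 < 3 * L := by linarith
  have hA : 0 < Real.exp (3 * L) - 1 := by
    have := Real.add_one_lt_exp (x := 3 * L) (by linarith)
    linarith
  have hd : 0 < Real.exp L - 1 := by
    have := Real.add_one_lt_exp (x := L) (by linarith)
    linarith
  have hp : 0 < Real.exp l - 1 := by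
    have := Real.add_one_lt_exp (x := l) (by linarith)
    linarith
  have hde : 0 < Real.exp (l / 3) - 1 := by
    have := Real.add_one_lt_exp (x := l / 3) (by positivity)
    have h' : 0 < l / 3 := by positivity
    linarith
  obtain ⟨e1, e2⟩ := hPH l (3 * L) hl hlL
  obtain ⟨e3, e4⟩ := hPH (l / 3) L (by positivity) (by linarith)
  set A : ℝ := Real.exp (3 * L) - 1 with hAdef
  set d : ℝ := Real.exp L - 1 with hddef
  set p : ℝ := Real.exp l - 1 with hpdef
  set de : ℝ := Real.exp (l / 3) - 1 with hdedef
  set s : ℝ := x1 + x2 + x3 with hsdef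
  set y : ℝ := l / (3 * L) with hydef
  have hy : 0 < y := by positivity
  have hyL : y * (3 * L) = l := by rw [hydef]; field_simp
  have e4' : de ≤ y * d := by
    have : l / 3 / L = y := by rw [hydef]; field_simp
    rw [this] at e4
    exact e4
  -- first end point
  have f1 : p * y - l * (p / A) ≤ p - l := by
    have h := mul_le_mul_of_nonneg_left e1 (by positivity : 0 ≤ p * l)
    have r1 : p * l * (1 / (3 * L) - 1 / A) = p * y - l * (p / A) := by
      rw [hydef]; field_simp
    have r2 : p * l * (1 / l - 1 / p) = p - l := by field_simp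
    rw [r1, r2] at h
    exact h
  have f2 : 3 * y * de - l * (de / d) ≤ 3 * de - l := by
    have h := mul_le_mul_of_nonneg_left e3 (by positivity : 0 ≤ de * l)
    have r1 : de * l * (1 / L - 1 / d) = 3 * y * de - l * (de / d) := by
      rw [hydef]; field_simp
    have r2 : de * l * (1 / (l / 3) - 1 / de) = 3 * de - l := by field_simp
    rw [r1, r2] at h
    exact h
  have Qp : p ^ 2 / 3 ≤ K * y * p + eta * (p - l) := by
    have h := mul_le_mul_of_nonneg_left hK1 (by positivity : 0 ≤ y * p)
    have r1 : y * p * (A / 3 - eta * (1 - 3 * L / A)) =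
        (y * A) * p / 3 - eta * (y * p - l * (p / A)) := by
      rw [← hyL]; field_simp
    rw [r1] at h
    have h4 : p * p ≤ (y * A) * p := mul_le_mul_of_nonneg_right e2 hp.le
    have h5 := mul_le_mul_of_nonneg_left f1 heta
    have h6 : p ^ 2 = p * p := sq p
    have h7 : y * p * K = K * y * p := by ring
    have h8 : eta * (p * y - l * (p / A)) = eta * (y * p - l * (p / A)) := by ring
    linarith
  have Qd : de * (3 * de + p) / 2 ≤ K * y * (3 * de) + eta * (3 * de - l) := by
    have h := mul_le_mul_of_nonneg_left hK2 (by positivity : 0 ≤ 3 * y * de)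
    have r1 : 3 * y * de * ((3 * d + A) / 6 - eta * (1 - L / d)) =
        de * (3 * (y * d) + y * A) / 2 - eta * (3 * y * de - l * (de / d)) := by
      rw [← hyL]; field_simp; ring
    rw [r1] at h
    have h4 : de * (3 * de + p) ≤ de * (3 * (y * d) + y * A) :=
      mul_le_mul_of_nonneg_left (by linarith) hde.le
    have h5 := mul_le_mul_of_nonneg_left f2 heta
    have h7 : 3 * y * de * K = K * y * (3 * de) := by ring
    linarith
  -- convexity
  have key : s * (s + p) / 6 ≤ K * y * s + eta * (s - l) := by
    rcases eq_or_lt_of_le (h3.trans h2) with h6 | h6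
    · have hs : s = p := le_antisymm h2 (h6 ▸ h3)
      rw [hs]
      calc p * (p + p) / 6 = p ^ 2 / 3 := by ring
        _ ≤ _ := Qp
    · have g3 : 0 < p - 3 * de := by linarith
      have g1 : 0 ≤ (s - 3 * de) * (K * y * p + eta * (p - l) - p ^ 2 / 3) :=
        mul_nonneg (by linarith) (by linarith)
      have g2 : 0 ≤ (p - s) * (K * y * (3 * de) + eta * (3 * de - l) - de * (3 * de + p) / 2) :=
        mul_nonneg (by linarith) (by linarith)
      have g5 : 0 ≤ (s - 3 * de) * (p - s) * (p - 3 * de) / 6 := by
        have := mul_nonneg (mul_nonneg (by linarith : (0:ℝ) ≤ s - 3 * de)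
          (by linarith : (0:ℝ) ≤ p - s)) g3.le
        linarith
      have e : (p - 3 * de) * (K * y * s + eta * (s - l) - s * (s + p) / 6) =
          (s - 3 * de) * (K * y * p + eta * (p - l) - p ^ 2 / 3) +
          (p - s) * (K * y * (3 * de) + eta * (3 * de - l) - de * (3 * de + p) / 2) +
          (s - 3 * de) * (p - s) * (p - 3 * de) / 6 := by ring
      have g6 : 0 ≤ (p - 3 * de) * (K * y * s + eta * (s - l) - s * (s + p) / 6) := by
        rw [e]; linarith
      have g7 := nonneg_of_mul_nonneg_right g6 g3
      linarith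
  calc sg x1 x2 x3 ≤ s * (s + p) / 6 := h1
    _ ≤ K * y * s + eta * (s - l) := key

end KN.PkPI
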